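import Mathlib

open Filter Set

namespace Pool.Agent.Results.MP_8476ae_an.Cocktail

/-- the cocktail party metric: partners at distance 2, all other pairs at distance 1 -/
noncomputable def dd {m : ℕ} (x y : Fin m × Bool) : ℝ := if x = y then 0 else if x.1 = y.1 then 2 else 1
@[reducible] noncomputable def met (m : ℕ) : MetricSpace (Fin m × Bool) where
  dist := dd
  dist_self := by simp [dd]
  dist_comm x y := by simp [dd, eq_comm]
  dist_triangle x y z := by
    simp only [dd]; split_ifs <;> simp_all; norm_num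
  eq_of_dist_eq_zero {x y} h := by
    by_contra c; simp only [dd, c, if_false] at h; split_ifs at h <;> simp at h

lemma sc {p : ℝ} (hp : 1 < p) {a b c : ℕ → ℝ} (ha : ∀ i, 0 ≤ a i) (hb : ∀ i, 0 ≤ b i) (hc : ∀ i, 0 ≤ c i)
    (h : ∀ i, c i ≤ a i + b i) (sa : HasSum (a · ^ p) 1) (sb : HasSum (b · ^ p) 1) (s : HasSum (c · ^ p) (2 ^ p)) (i : ℕ) :
    c i = 2 * a i := by
  have p0 : 0 < p := by linarith
  have s' : HasSum (fun i => (c i / 2) ^ p) 1 := by
    simpa [Real.div_rpow (hc _), (Real.rpow_pos_of_pos two_pos p).ne'] using s.div_const (2 ^ p)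
  have t : HasSum (fun i => 2⁻¹ * a i ^ p + 2⁻¹ * b i ^ p) 1 := by
    have := (sa.mul_left 2⁻¹).add (sb.mul_left 2⁻¹)
    rwa [show (2⁻¹ : ℝ) * 1 + 2⁻¹ * 1 = 1 by norm_num] at this
  have u : ∀ i, (c i / 2) ^ p ≤ (2⁻¹ * a i + 2⁻¹ * b i) ^ p := fun i =>
    Real.rpow_le_rpow (by linarith [hc i]) (by linarith [h i]) p0.le
  have v : ∀ i, (2⁻¹ * a i + 2⁻¹ * b i) ^ p ≤ 2⁻¹ * a i ^ p + 2⁻¹ * b i ^ p := fun i =>
    (convexOn_rpow hp.le).2 (ha i) (hb i) (by norm_num) (by norm_num) (by norm_num)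
  have e : ¬(c i / 2) ^ p < 2⁻¹ * a i ^ p + 2⁻¹ * b i ^ p := fun e =>
    (hasSum_lt (fun i => (u i).trans (v i)) e s' t).false
  have ab : a i = b i := by_contra fun n => e ((u i).trans_lt
    ((strictConvexOn_rpow hp).2 (ha i) (hb i) n (by norm_num) (by norm_num) (by norm_num)))
  by_contra n
  exact e ((Real.rpow_lt_rpow (by linarith [hc i]) (lt_of_le_of_ne (by linarith [h i])
    fun e => n (by linarith)) p0).trans_le (v i))

lemma dim {p : ℝ} (hp : 1 < p) {m : ℕ} (hm : 2 ≤ m) {X : Type} [NormedAddCommGroup X] [NormedSpace ℝ X]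
    [FiniteDimensional ℝ X] (f : Fin m × Bool → lp (fun _ : ℕ => X) (.ofReal p))
    (h : ∀ x y, ‖f x - f y‖ = dd x y) : m ≤ Module.finrank ℝ X := by
  have p0 : 0 < p := by linarith
  have s : ∀ x y, HasSum (fun i => ‖f x i - f y i‖ ^ p) (dd x y ^ p) := fun x y => by
    simpa [h, p0.le] using lp.hasSum_norm (by simpa [p0.le]) (f x - f y)
  have k : ∀ i j b c n, i ≠ j → ‖f (i, b) n - f (i, !b) n‖ = 2 * ‖f (i, b) n - f (j, c) n‖ := fun i j b c n e =>
    sc hp (b := fun n => ‖f (j, c) n - f (i, !b) n‖) (fun _ => norm_nonneg _) (fun _ => norm_nonneg _)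
      (fun _ => norm_nonneg _) (fun _ => norm_sub_le_norm_sub_add_norm_sub _ _ _)
      (by simpa [dd, e] using s (i, b) (j, c)) (by simpa [dd, e.symm] using s (j, c) (i, !b))
      (by simpa [dd] using s (i, b) (i, !b)) n
  obtain ⟨n, hn⟩ : ∃ n, ‖f (⟨0, by omega⟩, true) n - f (⟨0, by omega⟩, false) n‖ ≠ 0 := by
    by_contra! c
    have := s (⟨0, by omega⟩, true) (⟨0, by omega⟩, false)
    simp only [c, Real.zero_rpow p0.ne'] at this
    exact (Real.rpow_pos_of_pos (by simp [dd]) p).ne (hasSum_zero.unique this)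
  have nz : ∀ i, ‖f (i, true) n - f (i, false) n‖ ≠ 0 := fun i => by
    rcases eq_or_ne i ⟨0, by omega⟩ with rfl | e
    · exact hn
    · have := k i _ true true n e
      rw [norm_sub_rev (f _ n) (f (⟨0, _⟩, true) n), ← k _ i true true n e.symm] at this
      exact this ▸ hn
  choose g g1 g2 using fun i => exists_dual_vector'' ℝ (f (i, true) n - f (i, false) n)
  have mid : ∀ i j c, i ≠ j → 2 * g i (f (i, true) n - f (j, c) n) = ‖f (i, true) n - f (i, false) n‖ := fun i j c e => by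
    have a := (g i).le_of_opNorm_le (g1 i) (f (i, true) n - f (j, c) n)
    have b := (g i).le_of_opNorm_le (g1 i) (f (j, c) n - f (i, false) n)
    have d := g2 i
    have a' := k i j true c n e
    have b' := k i j false c n e
    rw [norm_sub_rev, norm_sub_rev (f _ n) (f (j, c) n)] at b'
    simp only [map_sub, Real.norm_eq_abs, one_mul, Bool.not_true, Bool.not_false, RCLike.ofReal_real_eq_id, id] at *
    linarith [(abs_le.1 a).2, (abs_le.1 b).2]
  simpa using (LinearIndependent.of_pairwise_dual_eq_zero_one (fun i => f (i, true) n - f (i, false) n)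
    (fun i => ‖f (i, true) n - f (i, false) n‖⁻¹ • (g i).toLinearMap) (fun i j e => by
      have a := mid i j true e
      have b := mid i j false e
      simp only [map_sub] at a b
      simp [show g i (f (j, true) n) = g i (f (j, false) n) by linarith]) fun i => by
      simp [-map_sub, g2, nz]).fintype_card_le_finrank

theorem result (C : ℝ) (hC : 1 ≤ C) : ∃ p ≥ (1 : ℝ), ∃ D ≥ (1 : ℝ), ∀ N : ℕ, ∃ n ≥ N,
    ∃ (M : Type) (_ : Fintype M) (_ : MetricSpace M), Fintype.card M = n ∧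
      ∀ (X : Type) [NormedAddCommGroup X] [NormedSpace ℝ X] [FiniteDimensional ℝ X],
        (Module.finrank ℝ X : ℝ) ≤ (n : ℝ) ^ (C / (p * D)) →
        ¬∃ f : M → lp (fun _ : ℕ => X) (.ofReal p), ∀ x y, dist x y ≤ ‖f x - f y‖ ∧ ‖f x - f y‖ ≤ D * dist x y := by
  refine ⟨2 * C, by linarith, 1, le_rfl, fun N => ⟨(N + 3) * 2, by omega, Fin (N + 3) × Bool, inferInstance, met _,
    by simp, fun X _ _ _ h ⟨f, hf⟩ => ?_⟩⟩
  have := dim (by linarith) (by omega) f fun x y => le_antisymm ((hf x y).2.trans_eq (one_mul _)) (hf x y).1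
  rw [show C / (2 * C * 1) = 1 / 2 by field_simp, ← Real.sqrt_eq_rpow] at h
  have := (Real.le_sqrt (by positivity) (by positivity)).1 ((Nat.cast_le.2 this).trans h)
  push_cast at this
  nlinarith [(N.cast_nonneg : (0 : ℝ) ≤ N)]

end Pool.Agent.Results.MP_8476ae_an.Cocktail
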